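import Mathlib
import Pool.Agent.Lib.MP_8f05cb_co.Defs
import Pool.Agent.Lib.MP_8f05cb_co.Upper
import Pool.Agent.Lib.MP_8f05cb_co.Lower
import Pool.Agent.Lib.MP_8f05cb_co.Small

/-!
# The least number of edges of a connected graph with perfect state transfer

`m n` is the least number of edges of a connected simple graph on `n` vertices admitting perfect
state transfer (see `Pool/Agent/Lib/MP_8f05cb_co/Defs.lean`). We show `m n = n` for all
`n ≥ 2876`, together with `n ≤ m n ≤ 2 n - 4` for all `n ≥ 4` and the two tree values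
`m 3 = 2`, `m 2 = 1`.
-/

namespace Pool.Agent.Results.MP_8f05cb_co.EdgeMinimum

theorem result :
    (∀ n : ℕ, 2876 ≤ n → MP_8f05cb_co.m n = (n : ℕ∞)) ∧
    (∀ n : ℕ, 4 ≤ n → (n : ℕ∞) ≤ MP_8f05cb_co.m n ∧
      MP_8f05cb_co.m n ≤ ((2 * n - 4 : ℕ) : ℕ∞)) ∧
    MP_8f05cb_co.m 3 = 2 ∧ MP_8f05cb_co.m 2 = 1 :=
  ⟨fun n hn => le_antisymm (MP_8f05cb_co.m_le n hn) (MP_8f05cb_co.le_m n (by omega)),
    fun n hn => ⟨MP_8f05cb_co.le_m n hn, MP_8f05cb_co.m_le_two_mul n (by omega)⟩,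
    MP_8f05cb_co.m_three, MP_8f05cb_co.m_two⟩

end Pool.Agent.Results.MP_8f05cb_co.EdgeMinimum
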